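import Pool.Agent.Helper62.TH.Mix

/-!
# Classes with cells in two intervals (helper62)
-/

set_option autoImplicit false

namespace Pool.Agent.Helper62.TH

open MeasureTheory Finset Pool.Agent.Helper43.Copula Pool.Agent.Helper3.Cop

theorem sum_clamp_mul (b : ℕ) (y : ℝ) : ∑ c ∈ range b, clamp (b * y - c) = b * clamp y := by
  rcases le_total y 0 with h | h
  · rw [clamp_of_nonpos h, mul_zero]
    refine sum_eq_zero fun c _ => clamp_of_nonpos ?_
    have h1 : (b : ℝ) * y ≤ 0 := mul_nonpos_of_nonneg_of_nonpos (Nat.cast_nonneg b) h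
    have h2 : (0 : ℝ) ≤ c := Nat.cast_nonneg c
    linarith
  · rw [sum_clamp b _ (mul_nonneg (Nat.cast_nonneg b) h)]
    unfold clamp
    rcases le_total y 1 with h' | h'
    · rw [min_eq_right h', max_eq_right h, min_eq_left]
      calc (b : ℝ) * y ≤ b * 1 := mul_le_mul_of_nonneg_left h' (Nat.cast_nonneg b)
        _ = b := mul_one _
    · rw [min_eq_left h', max_eq_right zero_le_one, mul_one, min_eq_right]
      calc (b : ℝ) = b * 1 := (mul_one _).symm
        _ ≤ b * y := mul_le_mul_of_nonneg_left h' (Nat.cast_nonneg b)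

/-- distribution functions of the cells: `a` cells in `(1/2, 1]`, `b` cells in `(r - w, r]` -/
noncomputable def HH (a b : ℕ) (r w : ℝ) (c : ℕ) (x : ℝ) : ℝ :=
  if c < a then clamp (a * (2 * x) - c) else clamp (b * ((x - 1 + r) / w) - (c - a : ℕ))

/-- right ends of the cells -/
noncomputable def RR (a b : ℕ) (r w : ℝ) (c : ℕ) : ℝ :=
  if c < a then 1 - c / (2 * a) else r - w * ((c - a : ℕ) / b)

variable {a b : ℕ} {r w : ℝ}

theorem HH_mono (hw : 0 < w) (c : ℕ) : Monotone (HH a b r w c) := by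
  intro x y hxy
  unfold HH
  split_ifs with h
  · apply clamp_mono
    have : (a : ℝ) * (2 * x) ≤ a * (2 * y) :=
      mul_le_mul_of_nonneg_left (by linarith) (Nat.cast_nonneg a)
    linarith
  · apply clamp_mono
    have : (b : ℝ) * ((x - 1 + r) / w) ≤ b * ((y - 1 + r) / w) :=
      mul_le_mul_of_nonneg_left (div_le_div_of_nonneg_right (by linarith) hw.le)
        (Nat.cast_nonneg b)
    linarith

theorem HH_zero (hw : 0 < w) (hr : r ≤ 1) (c : ℕ) : HH a b r w c 0 = 0 := by
  unfold HH
  split_ifs with h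
  · apply clamp_of_nonpos
    have : (0 : ℝ) ≤ c := Nat.cast_nonneg c
    linarith
  · apply clamp_of_nonpos
    have h1 : (0 - 1 + r) / w ≤ 0 := div_nonpos_of_nonpos_of_nonneg (by linarith) hw.le
    have h2 : (b : ℝ) * ((0 - 1 + r) / w) ≤ 0 :=
      mul_nonpos_of_nonneg_of_nonpos (Nat.cast_nonneg b) h1
    have h3 : (0 : ℝ) ≤ ((c - a : ℕ) : ℝ) := Nat.cast_nonneg _
    linarith

theorem HH_one (hw : 0 < w) (hwr : w ≤ r) {c : ℕ} (hc : c < a + b) : HH a b r w c 1 = 1 := by
  unfold HH
  split_ifs with h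
  · apply clamp_of_one_le
    have h1 : (c : ℝ) + 1 ≤ a := by exact_mod_cast h
    have h2 : (0 : ℝ) ≤ c := Nat.cast_nonneg c
    linarith
  · apply clamp_of_one_le
    have h1 : ((c - a : ℕ) : ℝ) + 1 ≤ b := by
      have : c - a + 1 ≤ b := by omega
      exact_mod_cast this
    have h2 : (1 : ℝ) ≤ (1 - 1 + r) / w := by
      rw [one_le_div hw]
      linarith
    have h3 : (b : ℝ) * 1 ≤ b * ((1 - 1 + r) / w) :=
      mul_le_mul_of_nonneg_left h2 (Nat.cast_nonneg b)
    linarith

theorem RR_nonneg (hw : 0 < w) (hwr : w ≤ r) {c : ℕ} (hc : c < a + b) : 0 ≤ RR a b r w c := by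
  unfold RR
  split_ifs with h
  · have h1 : (c : ℝ) ≤ a := by exact_mod_cast h.le
    have h0 : (0 : ℝ) < a := by
      have : 0 < a := by omega
      exact_mod_cast this
    have : (c : ℝ) / (2 * a) ≤ 1 := by
      rw [div_le_one (by linarith)]
      linarith
    linarith
  · have h0 : (0 : ℝ) < b := by
      have : 0 < b := by omega
      exact_mod_cast this
    have h1 : ((c - a : ℕ) : ℝ) / b ≤ 1 := by
      rw [div_le_one h0]
      have : c - a ≤ b := by omega
      exact_mod_cast this
    have h2 : w * (((c - a : ℕ) : ℝ) / b) ≤ w * 1 := mul_le_mul_of_nonneg_left h1 hw.le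
    linarith

theorem HH_van (hw : 0 < w) {c : ℕ} (hc : c < a + b) {x : ℝ} (hx : x < 1 - RR a b r w c) :
    HH a b r w c x ≤ 0 := by
  unfold HH
  unfold RR at hx
  split_ifs at hx ⊢ with h
  · apply le_of_eq
    apply clamp_of_nonpos
    have h0 : (0 : ℝ) < a := by
      have : 0 < a := by omega
      exact_mod_cast this
    have h1 : x < c / (2 * a) := by linarith
    rw [lt_div_iff₀ (by linarith)] at h1
    linarith
  · apply le_of_eq
    apply clamp_of_nonpos
    have h0 : (0 : ℝ) < b := by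
      have : 0 < b := by omega
      exact_mod_cast this
    have h1 : (x - 1 + r) / w < ((c - a : ℕ) : ℝ) / b := by
      rw [div_lt_iff₀ hw, mul_comm]
      linarith
    have h2 : (b : ℝ) * ((x - 1 + r) / w) < b * (((c - a : ℕ) : ℝ) / b) :=
      mul_lt_mul_of_pos_left h1 h0
    rw [mul_div_cancel₀ _ h0.ne'] at h2
    linarith

theorem HH_sum (x : ℝ) : ∑ c ∈ range (a + b), HH a b r w c x =
    a * clamp (2 * x) + b * clamp ((x - 1 + r) / w) := by
  rw [sum_range_add, ← sum_clamp_mul a, ← sum_clamp_mul b]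
  congr 1
  · refine sum_congr rfl fun c hc => ?_
    unfold HH
    rw [if_pos (mem_range.mp hc)]
  · refine sum_congr rfl fun c hc => ?_
    unfold HH
    rw [if_neg (by omega), Nat.add_sub_cancel_left]

/-- the product of an arithmetic progression -/
noncomputable def Q (a : ℕ) : ℝ := ∏ c ∈ range a, (1 - (c : ℝ) / (2 * a))

theorem RR_prod : ∏ c ∈ range (a + b), RR a b r w c =
    Q a * ∏ c ∈ range b, (r - w * ((c : ℝ) / b)) := by
  rw [prod_range_add]
  congr 1
  · refine prod_congr rfl fun c hc => ?_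
    unfold RR
    rw [if_pos (mem_range.mp hc)]
  · refine prod_congr rfl fun c hc => ?_
    unfold RR
    rw [if_neg (by omega), Nat.add_sub_cancel_left]

theorem Q_nonneg (a : ℕ) : 0 ≤ Q a := by
  unfold Q
  refine prod_nonneg fun c hc => ?_
  have h := mem_range.mp hc
  have h1 : (c : ℝ) ≤ a := by exact_mod_cast h.le
  have h0 : (0 : ℝ) < a := by
    have : 0 < a := by omega
    exact_mod_cast this
  have : (c : ℝ) / (2 * a) ≤ 1 := by
    rw [div_le_one (by linarith)]
    linarith
  linarith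

theorem lam_convex {u v : ℝ} (hu : 0 < u) (hv : 0 < v) :
    Real.log v * (u - v) ≤ (u * Real.log u - u) - (v * Real.log v - v) := by
  have h := Real.one_sub_inv_le_log_of_pos (div_pos hu hv)
  rw [Real.log_div hu.ne' hv.ne', inv_div] at h
  have h2 : u * (1 - v / u) ≤ u * (Real.log u - Real.log v) := mul_le_mul_of_nonneg_left h hu.le
  have h3 : u * (1 - v / u) = u - v := by
    field_simp
  rw [h3] at h2
  linarith

theorem Q_le (a : ℕ) : Q a ≤ 2 * (2 ^ a * Real.exp (-a)) := by
  rcases Nat.eq_zero_or_pos a with rfl | ha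
  · unfold Q
    simp
  have h0 : (0 : ℝ) < a := by exact_mod_cast ha
  set u : ℕ → ℝ := fun c => 1 - (c : ℝ) / (2 * a) with hu
  have hpos : ∀ c ≤ a, 0 < u c := by
    intro c hc
    have h1 : (c : ℝ) ≤ a := by exact_mod_cast hc
    have h2 : (c : ℝ) / (2 * a) ≤ 1 / 2 := by
      rw [div_le_iff₀ (by linarith)]
      linarith
    simp only [hu]
    linarith
  have hQ : Q a = 2 * ∏ c ∈ range a, u (c + 1) := by
    have e1 : ∏ c ∈ range (a + 1), u c = Q a * u a := prod_range_succ u a
    have e2 : ∏ c ∈ range (a + 1), u c = (∏ c ∈ range a, u (c + 1)) * u 0 := prod_range_succ' u a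
    have e3 : u a = 1 / 2 := by
      simp only [hu]
      field_simp
      norm_num
    have e4 : u 0 = 1 := by simp [hu]
    rw [e3] at e1
    rw [e4, mul_one] at e2
    rw [← e2, e1]
    ring
  have hlog : ∑ c ∈ range a, Real.log (u (c + 1)) ≤ a * (Real.log 2 - 1) := by
    have h1 : ∀ c ∈ range a, Real.log (u (c + 1)) ≤
        2 * a * ((u c * Real.log (u c) - u c) -
          (u (c + 1) * Real.log (u (c + 1)) - u (c + 1))) := by
      intro c hc
      have hc' := mem_range.mp hc
      have h2 := lam_convex (hpos c hc'.le) (hpos (c + 1) hc')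
      have h3 : u c - u (c + 1) = 1 / (2 * a) := by
        simp only [hu]
        push_cast
        field_simp
        ring
      rw [h3] at h2
      have h4 := mul_le_mul_of_nonneg_left h2 (show (0 : ℝ) ≤ 2 * a by linarith)
      have h5 : 2 * (a : ℝ) * (Real.log (u (c + 1)) * (1 / (2 * a))) = Real.log (u (c + 1)) := by
        field_simp
      rw [h5] at h4
      exact h4
    refine (sum_le_sum h1).trans ?_
    rw [← mul_sum, sum_range_sub' (fun c => u c * Real.log (u c) - u c)]
    have e3 : u a = 1 / 2 := by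
      simp only [hu]
      field_simp
      norm_num
    have e4 : u 0 = 1 := by simp [hu]
    rw [e3, e4, Real.log_one, one_div, Real.log_inv]
    apply le_of_eq
    ring
  have hprod : ∏ c ∈ range a, u (c + 1) ≤ 2 ^ a * Real.exp (-a) := by
    have h1 : ∏ c ∈ range a, u (c + 1) = Real.exp (∑ c ∈ range a, Real.log (u (c + 1))) := by
      rw [Real.exp_sum]
      refine prod_congr rfl fun c hc => ?_
      rw [Real.exp_log (hpos _ (mem_range.mp hc))]
    rw [h1]
    refine (Real.exp_le_exp.mpr hlog).trans (le_of_eq ?_)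
    rw [mul_sub, mul_one, sub_eq_add_neg, Real.exp_add, mul_comm (a : ℝ) (Real.log 2),
      Real.exp_mul, Real.exp_log two_pos, Real.rpow_natCast]
  rw [hQ]
  linarith

/-- the dyadic decomposition of the uniform distribution -/
theorem dyadic (x : ℝ) (hx : 0 ≤ x) (hx1 : x ≤ 1) (J : ℕ) :
    ∑ i ∈ range J, (1 / 2 : ℝ) ^ (i + 1) *
        clamp ((x - 1 + (1 / 2) ^ i) / (1 / 2) ^ (i + 1)) +
      (1 / 2 : ℝ) ^ J * clamp ((x - 1 + (1 / 2) ^ J) / (1 / 2) ^ J) = x := by
  induction J with
  | zero =>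
    have : clamp x = x := by
      unfold clamp
      rw [min_eq_right hx1, max_eq_right hx]
    simp [this]
  | succ J ih =>
    rw [sum_range_succ]
    have hp : (0 : ℝ) < (1 / 2) ^ J := by positivity
    have key : (1 / 2 : ℝ) ^ (J + 1) * clamp ((x - 1 + (1 / 2) ^ J) / (1 / 2) ^ (J + 1)) +
        (1 / 2 : ℝ) ^ (J + 1) * clamp ((x - 1 + (1 / 2) ^ (J + 1)) / (1 / 2) ^ (J + 1)) =
        (1 / 2 : ℝ) ^ J * clamp ((x - 1 + (1 / 2) ^ J) / (1 / 2) ^ J) := by
      have h2 := sum_clamp_mul 2 ((x - 1 + (1 / 2) ^ J) / (1 / 2) ^ J)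
      rw [sum_range_succ, sum_range_one] at h2
      have e1 : ((2 : ℕ) : ℝ) * ((x - 1 + (1 / 2) ^ J) / (1 / 2) ^ J) - ((0 : ℕ) : ℝ) =
          (x - 1 + (1 / 2) ^ J) / (1 / 2) ^ (J + 1) := by
        rw [pow_succ]
        push_cast
        field_simp
        ring
      have e2 : ((2 : ℕ) : ℝ) * ((x - 1 + (1 / 2) ^ J) / (1 / 2) ^ J) - ((1 : ℕ) : ℝ) =
          (x - 1 + (1 / 2) ^ (J + 1)) / (1 / 2) ^ (J + 1) := by
        rw [pow_succ]
        push_cast
        field_simp
        ring
      rw [e1, e2] at h2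
      rw [← mul_add, h2, pow_succ]
      push_cast
      ring
    rw [add_assoc, key]
    exact ih

end Pool.Agent.Helper62.TH
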