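import Pool.Agent.Helper3.Cop.Latin

/-!
# Mixtures of cyclic products (helper62)
-/

set_option autoImplicit false

namespace Pool.Agent.Helper62.TH

open MeasureTheory Finset Pool.Agent.Helper43.Copula Pool.Agent.Helper3.Cop

variable {n : ℕ} {τ : Type*}

/-- classes of cells: weights, distribution functions of the cells, lengths of the boxes -/
structure Good (n : ℕ) (T : Finset τ) (p : τ → ℝ) (H : τ → ℕ → ℝ → ℝ) (R : τ → ℕ → ℝ) :
    Prop where
  pos : ∀ t ∈ T, 0 ≤ p t
  mono : ∀ t ∈ T, ∀ c < n, Monotone (H t c)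
  zero : ∀ t ∈ T, ∀ c < n, H t c 0 = 0
  one : ∀ t ∈ T, ∀ c < n, H t c 1 = 1
  sum : ∀ x : ℝ, 0 ≤ x → x ≤ 1 → ∑ t ∈ T, p t / n * ∑ c ∈ range n, H t c x = x
  nonneg : ∀ t ∈ T, ∀ c < n, 0 ≤ R t c
  van : ∀ t ∈ T, ∀ c < n, ∀ x : ℝ, x < 1 - R t c → H t c x ≤ 0

/-- the mixture -/
noncomputable def mix (n : ℕ) (T : Finset τ) (p : τ → ℝ) (H : τ → ℕ → ℝ → ℝ)
    (x : Fin n → ℝ) : ℝ :=
  1 * ∑ t ∈ T, p t / n * ∑ i : Fin n, ∏ k, H t (cell n i k) (x k)

variable {T : Finset τ} {p : τ → ℝ} {H : τ → ℕ → ℝ → ℝ} {R : τ → ℕ → ℝ}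

theorem Good.h0 (h : Good n T p H R) {t : τ} (ht : t ∈ T) {c : ℕ} (hc : c < n) {x : ℝ}
    (hx : 0 ≤ x) : 0 ≤ H t c x := by
  rw [← h.zero t ht c hc]
  exact h.mono t ht c hc hx

theorem Good.h1 (h : Good n T p H R) {t : τ} (ht : t ∈ T) {c : ℕ} (hc : c < n) {x : ℝ}
    (hx : x ≤ 1) : H t c x ≤ 1 := by
  rw [← h.one t ht c hc]
  exact h.mono t ht c hc hx

theorem Good.sum_p (hn : 1 ≤ n) (h : Good n T p H R) : ∑ t ∈ T, p t = 1 := by
  have hn' : (n : ℝ) ≠ 0 := by positivity
  have h1 := h.sum 1 zero_le_one le_rfl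
  rw [← h1]
  refine sum_congr rfl fun t ht => ?_
  rw [sum_congr rfl fun c hc => h.one t ht c (mem_range.mp hc)]
  simp only [sum_const, card_range, nsmul_eq_mul, mul_one]
  field_simp

theorem isCopula_mix (hn : 1 ≤ n) (h : Good n T p H R) : IsCopula n (mix n T p H) where
  range := by
    intro x hx
    have h0 : ∀ t ∈ T, ∀ i : Fin n, 0 ≤ ∏ k, H t (cell n i k) (x k) := fun t ht i =>
      prod_nonneg fun k _ => h.h0 ht (cell_lt i k) (hx k).1
    have h1 : ∀ t ∈ T, ∀ i : Fin n, ∏ k, H t (cell n i k) (x k) ≤ 1 := fun t ht i =>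
      prod_le_one (fun k _ => h.h0 ht (cell_lt i k) (hx k).1)
        fun k _ => h.h1 ht (cell_lt i k) (hx k).2
    have hn' : (0 : ℝ) < n := by exact_mod_cast hn
    unfold mix
    rw [one_mul]
    constructor
    · exact sum_nonneg fun t ht => mul_nonneg (div_nonneg (h.pos t ht) hn'.le)
        (sum_nonneg fun i _ => h0 t ht i)
    · calc ∑ t ∈ T, p t / n * ∑ i : Fin n, ∏ k, H t (cell n i k) (x k)
          ≤ ∑ t ∈ T, p t / n * ∑ i : Fin n, 1 := by
            refine sum_le_sum fun t ht => mul_le_mul_of_nonneg_left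
              (sum_le_sum fun i _ => h1 t ht i) (div_nonneg (h.pos t ht) hn'.le)
        _ = ∑ t ∈ T, p t := by
            refine sum_congr rfl fun t ht => ?_
            simp only [sum_const, card_univ, Fintype.card_fin, nsmul_eq_mul, mul_one]
            field_simp
        _ = 1 := h.sum_p hn
  grounded := by
    rintro x - ⟨k, hk⟩
    unfold mix
    rw [one_mul]
    refine sum_eq_zero fun t ht => ?_
    rw [sum_eq_zero, mul_zero]
    intro i _
    apply prod_eq_zero (mem_univ k)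
    rw [hk]
    exact h.zero t ht _ (cell_lt i k)
  margin := by
    intro x hx k hk
    have h1 : ∀ t ∈ T, ∀ i : Fin n, ∏ l, H t (cell n i l) (x l) = H t (cell n i k) (x k) := by
      intro t ht i
      rw [← mul_prod_erase _ _ (mem_univ k), prod_eq_one, mul_one]
      intro l hl
      rw [hk l (ne_of_mem_erase hl)]
      exact h.one t ht _ (cell_lt i l)
    unfold mix
    rw [one_mul]
    have h2 := h.sum (x k) (hx k).1 (hx k).2
    refine Eq.trans ?_ h2
    refine sum_congr rfl fun t ht => ?_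
    rw [sum_congr rfl fun i _ => h1 t ht i, sum_cell k (fun j => H t j (x k))]
  increasing := by
    intro u hu v hv huv
    have e : boxVolume (mix n T p H) u v = 1 * ∑ t ∈ T,
        boxVolume (fun x => p t / n * ∑ i : Fin n, ∏ k, H t (cell n i k) (x k)) u v :=
      boxVolume_sum T (fun t x => p t / n * ∑ i : Fin n, ∏ k, H t (cell n i k) (x k)) 1 u v
    rw [e, one_mul]
    refine sum_nonneg fun t ht => ?_
    have e2 : boxVolume (fun x => p t / n * ∑ i : Fin n, ∏ k, H t (cell n i k) (x k)) u v =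
        p t / n * ∑ i : Fin n, boxVolume (fun x => ∏ k, H t (cell n i k) (x k)) u v :=
      boxVolume_sum univ (fun (i : Fin n) x => ∏ k, H t (cell n i k) (x k)) (p t / n) u v
    rw [e2]
    refine mul_nonneg (div_nonneg (h.pos t ht) (Nat.cast_nonneg n)) (sum_nonneg fun i _ => ?_)
    rw [boxVolume_prod (fun k => H t (cell n i k))]
    exact prod_nonneg fun k _ => sub_nonneg.mpr (h.mono t ht _ (cell_lt i k) (huv k))

/-- the boxes outside which the mixture vanishes -/
def mixBox (n : ℕ) (R : τ → ℕ → ℝ) (t : τ) (i : Fin n) : Set (Fin n → ℝ) :=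
  Set.Icc (fun k => 1 - R t (cell n i k)) (fun _ => 1)

theorem volume_mixBox (h : Good n T p H R) {t : τ} (ht : t ∈ T) (i : Fin n) :
    volume (mixBox n R t i) = ENNReal.ofReal (∏ c ∈ range n, R t c) := by
  unfold mixBox
  rw [Real.volume_Icc_pi, ← ENNReal.ofReal_prod_of_nonneg]
  · rw [← prod_cell i (fun j => R t j)]
    congr 1
    refine prod_congr rfl fun k _ => ?_
    ring
  · intro k _
    have := h.nonneg t ht _ (cell_lt i k)
    linarith

theorem mix_eq_zero (h : Good n T p H R) {x : Fin n → ℝ} (hx : x ∈ cube n)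
    (hb : ∀ t ∈ T, ∀ i, x ∉ mixBox n R t i) : mix n T p H x = 0 := by
  unfold mix
  rw [one_mul]
  refine sum_eq_zero fun t ht => ?_
  rw [sum_eq_zero, mul_zero]
  intro i _
  have h1 : ∃ k, x k < 1 - R t (cell n i k) := by
    by_contra hcon
    push Not at hcon
    exact hb t ht i ⟨fun k => hcon k, fun k => (hx k).2⟩
  obtain ⟨k, hk⟩ := h1
  apply prod_eq_zero (mem_univ k)
  exact le_antisymm (h.van t ht _ (cell_lt i k) _ hk) (h.h0 ht (cell_lt i k) (hx k).1)

/-- lower bound for `s_n` -/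
theorem mix_bound (hn : 1 ≤ n) (h : Good n T p H R) :
    1 - ∑ t ∈ T, (n : ℝ) * ∏ c ∈ range n, R t c ≤ (maxAgreement n).toReal := by
  classical
  have hn' : (0 : ℝ) < n := by exact_mod_cast hn
  have hR : ∀ t ∈ T, 0 ≤ ∏ c ∈ range n, R t c := fun t ht =>
    prod_nonneg fun c hc => h.nonneg t ht c (mem_range.mp hc)
  set B : Set (Fin n → ℝ) := ⋃ t ∈ T, ⋃ i, mixBox n R t i with hB
  set A : Set (Fin n → ℝ) := cube n \ B with hA
  have hmeas : MeasurableSet B := T.measurableSet_biUnion fun t _ =>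
    MeasurableSet.iUnion fun i => measurableSet_Icc
  have hvol : volume B ≤ ENNReal.ofReal (∑ t ∈ T, (n : ℝ) * ∏ c ∈ range n, R t c) := by
    refine (measure_biUnion_finset_le T _).trans ?_
    rw [ENNReal.ofReal_sum_of_nonneg fun t ht => mul_nonneg hn'.le (hR t ht)]
    refine sum_le_sum fun t ht => ?_
    refine (measure_iUnion_fintype_le _ _).trans ?_
    rw [sum_congr rfl fun i _ => volume_mixBox h ht i, sum_const, card_univ, Fintype.card_fin,
      nsmul_eq_mul, ← ENNReal.ofReal_natCast, ← ENNReal.ofReal_mul (by positivity)]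
  have h1 : volume A ≤ maxAgreement n := by
    apply le_sSup
    refine ⟨A, Set.diff_subset, isClosed_cube.measurableSet.diff hmeas,
      ⟨mix n T p H, isCopula_mix hn h, ?_⟩, rfl⟩
    rintro x ⟨hx, hx'⟩
    have h0 : mix n T p H x = 0 := mix_eq_zero h hx fun t ht i hi => hx' (by
      rw [hB]
      simp only [Set.mem_iUnion]
      exact ⟨t, ht, i, hi⟩)
    refine le_antisymm ?_ (lowerFrechet_le hn (isCopula_mix hn h) hx)
    rw [h0]
    exact le_max_right _ _
  have h2 : volume (cube n) ≤ volume A + volume B := by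
    refine (measure_mono ?_).trans (measure_union_le _ _)
    intro x hx
    by_cases hb : x ∈ B
    · exact Or.inr hb
    · exact Or.inl ⟨hx, hb⟩
  rw [volume_cube] at h2
  have h3 : (1 : ENNReal) ≤ maxAgreement n +
      ENNReal.ofReal (∑ t ∈ T, (n : ℝ) * ∏ c ∈ range n, R t c) :=
    h2.trans (add_le_add h1 hvol)
  have h4 := ENNReal.toReal_mono (ENNReal.add_ne_top.mpr
    ⟨maxAgreement_ne_top, ENNReal.ofReal_ne_top⟩) h3
  rw [ENNReal.toReal_add maxAgreement_ne_top ENNReal.ofReal_ne_top,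
    ENNReal.toReal_ofReal (sum_nonneg fun t ht => mul_nonneg hn'.le (hR t ht))] at h4
  simp only [ENNReal.toReal_one] at h4
  linarith

end Pool.Agent.Helper62.TH
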