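import Pool.Agent.Helper62.TH.Cls

/-!
# The upper bound `1 - s_n ≤ 128 n exp (-n)` (helper62)
-/

set_option autoImplicit false

namespace Pool.Agent.Helper62.TH

open MeasureTheory Finset Pool.Agent.Helper43.Copula Pool.Agent.Helper3.Cop

/-- distribution functions of the cells: `a` cells in `[0, W]`, `b` cells in `[s, s + w]` -/
noncomputable def HJ (a b : ℕ) (W s w : ℝ) (c : ℕ) (x : ℝ) : ℝ :=
  if c < a then clamp (a * (x / W) - c) else clamp (b * ((x - s) / w) - (c - a : ℕ))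

variable {a b : ℕ} {W s w r v θ e : ℝ}

theorem HJ_mono (hW : 0 < W) (hw : 0 < w) (c : ℕ) : Monotone (HJ a b W s w c) := by
  intro x y hxy
  unfold HJ
  split_ifs with h
  · apply clamp_mono
    have : (a : ℝ) * (x / W) ≤ a * (y / W) :=
      mul_le_mul_of_nonneg_left (div_le_div_of_nonneg_right hxy hW.le) (Nat.cast_nonneg a)
    linarith
  · apply clamp_mono
    have : (b : ℝ) * ((x - s) / w) ≤ b * ((y - s) / w) :=
      mul_le_mul_of_nonneg_left (div_le_div_of_nonneg_right (by linarith) hw.le)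
        (Nat.cast_nonneg b)
    linarith

theorem HJ_zero (hw : 0 < w) (hs : 0 ≤ s) (c : ℕ) : HJ a b W s w c 0 = 0 := by
  unfold HJ
  split_ifs with h
  · apply clamp_of_nonpos
    have : (0 : ℝ) ≤ c := Nat.cast_nonneg c
    rw [zero_div, mul_zero]
    linarith
  · apply clamp_of_nonpos
    have h1 : (0 - s) / w ≤ 0 := div_nonpos_of_nonpos_of_nonneg (by linarith) hw.le
    have h2 : (b : ℝ) * ((0 - s) / w) ≤ 0 :=
      mul_nonpos_of_nonneg_of_nonpos (Nat.cast_nonneg b) h1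
    have h3 : (0 : ℝ) ≤ ((c - a : ℕ) : ℝ) := Nat.cast_nonneg _
    linarith

theorem HJ_one (hW : 0 < W) (hW1 : W ≤ 1) (hw : 0 < w) (hsw : s + w ≤ 1) {c : ℕ}
    (hc : c < a + b) : HJ a b W s w c 1 = 1 := by
  unfold HJ
  split_ifs with h
  · apply clamp_of_one_le
    have h1 : (c : ℝ) + 1 ≤ a := by exact_mod_cast h
    have h2 : (1 : ℝ) ≤ 1 / W := by
      rw [one_le_div hW]
      exact hW1
    have h3 : (a : ℝ) * 1 ≤ a * (1 / W) := mul_le_mul_of_nonneg_left h2 (Nat.cast_nonneg a)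
    linarith
  · apply clamp_of_one_le
    have h1 : ((c - a : ℕ) : ℝ) + 1 ≤ b := by
      have : c - a + 1 ≤ b := by omega
      exact_mod_cast this
    have h2 : (1 : ℝ) ≤ (1 - s) / w := by
      rw [one_le_div hw]
      linarith
    have h3 : (b : ℝ) * 1 ≤ b * ((1 - s) / w) :=
      mul_le_mul_of_nonneg_left h2 (Nat.cast_nonneg b)
    linarith

theorem HJ_sum (x : ℝ) : ∑ c ∈ range (a + b), HJ a b W s w c x =
    a * clamp (x / W) + b * clamp ((x - s) / w) := by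
  rw [sum_range_add, ← sum_clamp_mul a, ← sum_clamp_mul b]
  congr 1
  · refine sum_congr rfl fun c hc => ?_
    unfold HJ
    rw [if_pos (mem_range.mp hc)]
  · refine sum_congr rfl fun c hc => ?_
    unfold HJ
    rw [if_neg (by omega), Nat.add_sub_cancel_left]

theorem HJ_van (hW : 1 / 2 ≤ W) (hθ : 0 < θ) (hθ1 : θ ≤ 1) (he : 0 ≤ e) (hv : 0 < v)
    (hvr : v ≤ r) {c : ℕ} (hc : c < a + b) {x : ℝ} (hx : x < 1 - RR a b r v c) :
    HJ a b W (1 - θ * (r - e)) (θ * v) c x ≤ 0 := by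
  unfold HJ
  unfold RR at hx
  split_ifs at hx ⊢ with h
  · apply le_of_eq
    apply clamp_of_nonpos
    have h0 : (0 : ℝ) < a := by
      have : 0 < a := by omega
      exact_mod_cast this
    have hc0 : (0 : ℝ) ≤ c := Nat.cast_nonneg c
    have h1 : x < c / (2 * a) := by linarith
    rw [lt_div_iff₀ (by linarith)] at h1
    have hWp : 0 < W := by linarith
    have h2 : (a : ℝ) * (x / W) ≤ c := by
      rw [← mul_div_assoc, div_le_iff₀ hWp]
      have : (c : ℝ) * (1 / 2) ≤ c * W := mul_le_mul_of_nonneg_left hW hc0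
      linarith
    linarith
  · apply le_of_eq
    apply clamp_of_nonpos
    have h0 : (0 : ℝ) < b := by
      have : 0 < b := by omega
      exact_mod_cast this
    have hq1 : ((c - a : ℕ) : ℝ) / b ≤ 1 := by
      rw [div_le_one h0]
      have : c - a ≤ b := by omega
      exact_mod_cast this
    set q : ℝ := ((c - a : ℕ) : ℝ) / b with hq
    have hqb : ((c - a : ℕ) : ℝ) = b * q := by
      rw [hq]
      field_simp
    have hrq : 0 ≤ r - v * q := by
      have : v * q ≤ v * 1 := mul_le_mul_of_nonneg_left hq1 hv.le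
      linarith
    have h3 : θ * (r - v * q) ≤ 1 * (r - v * q) := mul_le_mul_of_nonneg_right hθ1 hrq
    have h4 : 0 ≤ θ * e := mul_nonneg hθ.le he
    have h1 : (x - (1 - θ * (r - e))) / (θ * v) ≤ q := by
      rw [div_le_iff₀ (by positivity)]
      nlinarith
    have h2 : (b : ℝ) * ((x - (1 - θ * (r - e))) / (θ * v)) ≤ b * q :=
      mul_le_mul_of_nonneg_left h1 h0.le
    linarith

theorem clampInt (hw : 0 < w) (x : ℝ) : w * clamp ((x - s) / w) = min x (s + w) - min x s := by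
  unfold clamp
  rcases le_total x s with h | h
  · have h1 : (x - s) / w ≤ 0 := div_nonpos_of_nonpos_of_nonneg (by linarith) hw.le
    rw [min_eq_right (by linarith : (x - s) / w ≤ 1), max_eq_left h1,
      min_eq_left (by linarith), min_eq_left h]
    ring
  · have h1 : 0 ≤ (x - s) / w := div_nonneg (by linarith) hw.le
    rcases le_total x (s + w) with h' | h'
    · have h2 : (x - s) / w ≤ 1 := by
        rw [div_le_one hw]
        linarith
      rw [min_eq_right h2, max_eq_right h1, min_eq_left h', min_eq_right h]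
      field_simp
    · have h2 : 1 ≤ (x - s) / w := by
        rw [one_le_div hw]
        linarith
      rw [min_eq_left h2, max_eq_right zero_le_one, min_eq_right h', min_eq_right h]
      ring

/-- number of cells of the class `i` in the interval `(2^(-i-2), 2^(-i-1)]` -/
def bb (n i : ℕ) : ℕ := (n - 6) / (i + 1) + 2

theorem bb_pos (n i : ℕ) : 0 < bb n i := by
  unfold bb
  exact Nat.succ_pos _

theorem bb_le {n : ℕ} (hn : 7 ≤ n) (i : ℕ) : bb n i ≤ n := by
  unfold bb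
  have : (n - 6) / (i + 1) ≤ n - 6 := Nat.div_le_self _ _
  omega

theorem le_bb {n : ℕ} (i : ℕ) : n + i ≤ (i + 1) * bb n i + 4 := by
  unfold bb
  have h1 := Nat.div_add_mod (n - 6) (i + 1)
  have h2 : (n - 6) % (i + 1) < i + 1 := Nat.mod_lt _ (Nat.succ_pos i)
  rw [mul_add]
  omega

theorem bb_upper {n : ℕ} (hn : 7 ≤ n) (i : ℕ) :
    ((i : ℝ) + 1) * bb n i ≤ n + 2 * i - 4 := by
  unfold bb
  have h1 : (i + 1) * ((n - 6) / (i + 1)) ≤ n - 6 := Nat.mul_div_le _ _
  have h2 : (i + 1) * ((n - 6) / (i + 1)) + 6 ≤ n := by omega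
  have h3 : ((i : ℝ) + 1) * (((n - 6) / (i + 1) : ℕ) : ℝ) + 6 ≤ n := by exact_mod_cast h2
  push_cast
  linarith

theorem ratio_ge {n : ℕ} (hn : 7 ≤ n) (i : ℕ) :
    ((i : ℝ) + 1) * (n + 4 - 2 * i) / n ≤ n / bb n i := by
  have hn0 : (0 : ℝ) < n := by
    have : 0 < n := by omega
    exact_mod_cast this
  have hb0 : (0 : ℝ) < bb n i := by
    have : 0 < bb n i := bb_pos n i
    exact_mod_cast this
  have hi : (0 : ℝ) ≤ i := Nat.cast_nonneg i
  have hu := bb_upper hn i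
  rw [div_le_div_iff₀ hn0 hb0]
  rcases le_total ((n : ℝ) + 4 - 2 * i) 0 with h | h
  · have h1 : ((i : ℝ) + 1) * (n + 4 - 2 * i) * bb n i ≤ 0 :=
      mul_nonpos_of_nonpos_of_nonneg (mul_nonpos_of_nonneg_of_nonpos (by linarith) h) hb0.le
    have h2 : 0 ≤ (n : ℝ) * n := by positivity
    linarith
  · have h1 : (n + 4 - 2 * i) * (((i : ℝ) + 1) * bb n i) ≤ (n + 4 - 2 * i) * (n + 2 * i - 4) :=
      mul_le_mul_of_nonneg_left hu h
    nlinarith [sq_nonneg ((2 : ℝ) * i - 4)]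

theorem closed (N : ℝ) (m : ℕ) :
    ∑ i ∈ range m, ((i : ℝ) + 1) * (N + 4 - 2 * i) * (1 / 2) ^ (i + 2) =
      (N + 4) * (1 - (m + 2) * (1 / 2) ^ (m + 1)) -
        2 * (2 - (m ^ 2 + 3 * m + 4) * (1 / 2) ^ (m + 1)) := by
  induction m with
  | zero => norm_num
  | succ m ih =>
    rw [sum_range_succ, ih]
    push_cast
    ring

/-- the total mass before normalisation -/
noncomputable def SS (n : ℕ) : ℝ := ∑ i ∈ range n, (n : ℝ) * (1 / 2) ^ (i + 2) / bb n i

theorem one_le_SS {n : ℕ} (hn : 7 ≤ n) : 1 ≤ SS n := by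
  have hn0 : (0 : ℝ) < n := by
    have : 0 < n := by omega
    exact_mod_cast this
  have h1 : ∑ i ∈ range n, ((i : ℝ) + 1) * (n + 4 - 2 * i) * (1 / 2) ^ (i + 2) / n ≤ SS n := by
    unfold SS
    refine sum_le_sum fun i _ => ?_
    have h2 := ratio_ge hn i
    have h3 : (0 : ℝ) ≤ (1 / 2) ^ (i + 2) := by positivity
    have h4 := mul_le_mul_of_nonneg_right h2 h3
    calc ((i : ℝ) + 1) * (n + 4 - 2 * i) * (1 / 2) ^ (i + 2) / n
        = ((i : ℝ) + 1) * (n + 4 - 2 * i) / n * (1 / 2) ^ (i + 2) := by ring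
      _ ≤ n / bb n i * (1 / 2) ^ (i + 2) := h4
      _ = (n : ℝ) * (1 / 2) ^ (i + 2) / bb n i := by ring
  rw [← sum_div, closed] at h1
  refine le_trans ?_ h1
  rw [le_div_iff₀ hn0]
  have h5 : (0 : ℝ) ≤ (1 / 2) ^ (n + 1) := by positivity
  have h6 : (0 : ℝ) ≤ (n : ℝ) ^ 2 * (1 / 2) ^ (n + 1) := by positivity
  nlinarith

theorem volume_le {n : ℕ} (hn : 7 ≤ n) (i : ℕ) :
    ∏ c ∈ range n, RR (n - bb n i) (bb n i) ((1 / 2) ^ (i + 1)) ((1 / 2) ^ (i + 2)) c ≤
      64 * Real.exp (-n) * (1 / 2) ^ i := by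
  have hab : n - bb n i + bb n i = n := Nat.sub_add_cancel (bb_le hn i)
  have hb0 : (0 : ℝ) < bb n i := by
    have : 0 < bb n i := bb_pos n i
    exact_mod_cast this
  have h1 : ∏ c ∈ range n, RR (n - bb n i) (bb n i) ((1 / 2) ^ (i + 1)) ((1 / 2) ^ (i + 2)) c =
      Q (n - bb n i) * ∏ c ∈ range (bb n i),
        ((1 / 2 : ℝ) ^ (i + 1) - (1 / 2) ^ (i + 2) * ((c : ℝ) / bb n i)) := by
    rw [← RR_prod, hab]
  have h2 : ∏ c ∈ range (bb n i),
      ((1 / 2 : ℝ) ^ (i + 1) - (1 / 2) ^ (i + 2) * ((c : ℝ) / bb n i)) =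
      (1 / 2 : ℝ) ^ ((i + 1) * bb n i) * Q (bb n i) := by
    unfold Q
    have h9 : (1 / 2 : ℝ) ^ ((i + 1) * bb n i) = ∏ _c ∈ range (bb n i), (1 / 2 : ℝ) ^ (i + 1) := by
      rw [prod_const, card_range, pow_mul]
    rw [h9, ← prod_mul_distrib]
    refine prod_congr rfl fun c _ => ?_
    rw [pow_succ (1 / 2 : ℝ) (i + 1)]
    field_simp
  rw [h1, h2]
  have hQ1 := Q_le (n - bb n i)
  have hQ2 := Q_le (bb n i)
  have hQ3 := Q_nonneg (n - bb n i)
  have hQ4 := Q_nonneg (bb n i)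
  have h3 : Q (n - bb n i) * Q (bb n i) ≤ 4 * (2 ^ n * Real.exp (-n)) := by
    calc Q (n - bb n i) * Q (bb n i)
        ≤ (2 * (2 ^ (n - bb n i) * Real.exp (-((n - bb n i : ℕ) : ℝ)))) *
          (2 * (2 ^ bb n i * Real.exp (-(bb n i : ℝ)))) := mul_le_mul hQ1 hQ2 hQ4 (by positivity)
      _ = 4 * ((2 ^ (n - bb n i) * 2 ^ bb n i) *
          (Real.exp (-((n - bb n i : ℕ) : ℝ)) * Real.exp (-(bb n i : ℝ)))) := by ring
      _ = 4 * (2 ^ n * Real.exp (-n)) := by
          rw [← pow_add, hab, ← Real.exp_add]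
          congr 3
          have : ((n - bb n i : ℕ) : ℝ) + bb n i = n := by exact_mod_cast hab
          linarith
  have h4 : (1 / 2 : ℝ) ^ ((i + 1) * bb n i) * 2 ^ n ≤ 16 * (1 / 2) ^ i := by
    have h5 : (1 / 2 : ℝ) ^ ((i + 1) * bb n i + 4) ≤ (1 / 2) ^ (n + i) :=
      pow_le_pow_of_le_one (by norm_num) (by norm_num) (le_bb i)
    rw [pow_add, pow_add] at h5
    have h6 : (1 / 2 : ℝ) ^ n * 2 ^ n = 1 := by
      rw [← mul_pow]
      norm_num
    have h7 : (0 : ℝ) < 2 ^ n := by positivity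
    calc (1 / 2 : ℝ) ^ ((i + 1) * bb n i) * 2 ^ n
        = 16 * ((1 / 2 : ℝ) ^ ((i + 1) * bb n i) * (1 / 2) ^ 4) * 2 ^ n := by ring
      _ ≤ 16 * ((1 / 2) ^ n * (1 / 2) ^ i) * 2 ^ n :=
          mul_le_mul_of_nonneg_right (mul_le_mul_of_nonneg_left h5 (by norm_num)) h7.le
      _ = 16 * (1 / 2) ^ i * ((1 / 2) ^ n * 2 ^ n) := by ring
      _ = 16 * (1 / 2) ^ i := by rw [h6, mul_one]
  have h8 : (0 : ℝ) ≤ (1 / 2) ^ ((i + 1) * bb n i) := by positivity
  calc Q (n - bb n i) * ((1 / 2 : ℝ) ^ ((i + 1) * bb n i) * Q (bb n i))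
      = (1 / 2 : ℝ) ^ ((i + 1) * bb n i) * (Q (n - bb n i) * Q (bb n i)) := by ring
    _ ≤ (1 / 2 : ℝ) ^ ((i + 1) * bb n i) * (4 * (2 ^ n * Real.exp (-n))) :=
        mul_le_mul_of_nonneg_left h3 h8
    _ = ((1 / 2 : ℝ) ^ ((i + 1) * bb n i) * 2 ^ n) * (4 * Real.exp (-n)) := by ring
    _ ≤ (16 * (1 / 2) ^ i) * (4 * Real.exp (-n)) :=
        mul_le_mul_of_nonneg_right h4 (by positivity)
    _ = 64 * Real.exp (-n) * (1 / 2) ^ i := by ring

theorem good {n : ℕ} (hn : 7 ≤ n) {θ : ℝ} (hθ : θ = 1 / SS n) :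
    Good n (range n) (fun i => (n : ℝ) * (θ * (1 / 2) ^ (i + 2)) / bb n i)
      (fun i => HJ (n - bb n i) (bb n i) (1 - θ * ((1 / 2) ^ (0 + 1) - (1 / 2) ^ (n + 1)))
        (1 - θ * ((1 / 2) ^ (i + 1) - (1 / 2) ^ (n + 1))) (θ * (1 / 2) ^ (i + 2)))
      (fun i => RR (n - bb n i) (bb n i) ((1 / 2) ^ (i + 1)) ((1 / 2) ^ (i + 2))) := by
  have hS := one_le_SS hn
  have hS0 : 0 < SS n := by linarith
  have hθ0 : 0 < θ := by rw [hθ]; positivity
  have hθ1 : θ ≤ 1 := by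
    rw [hθ, div_le_one hS0]
    exact hS
  have hn0 : (0 : ℝ) < n := by
    have : 0 < n := by omega
    exact_mod_cast this
  have hb0 : ∀ i, (0 : ℝ) < bb n i := by
    intro i
    have : 0 < bb n i := bb_pos n i
    exact_mod_cast this
  have hab : ∀ i, n - bb n i + bb n i = n := fun i => Nat.sub_add_cancel (bb_le hn i)
  have he : (0 : ℝ) ≤ (1 / 2) ^ (n + 1) := by positivity
  have he2 : ∀ i < n, (1 / 2 : ℝ) ^ (n + 1) ≤ (1 / 2) ^ (i + 2) := fun i hi =>
    pow_le_pow_of_le_one (by norm_num) (by norm_num) (by omega)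
  have hpow : ∀ i : ℕ, (1 / 2 : ℝ) ^ (i + 1) ≤ 1 / 2 := by
    intro i
    calc (1 / 2 : ℝ) ^ (i + 1) ≤ (1 / 2) ^ 1 :=
          pow_le_pow_of_le_one (by norm_num) (by norm_num) (by omega)
      _ = 1 / 2 := by norm_num
  have hpow2 : ∀ i : ℕ, (1 / 2 : ℝ) ^ (i + 2) = (1 / 2) ^ (i + 1) / 2 := by
    intro i
    rw [pow_succ (1 / 2 : ℝ) (i + 1)]
    ring
  have hW1 : 1 - θ * ((1 / 2 : ℝ) ^ (0 + 1) - (1 / 2) ^ (n + 1)) ≤ 1 := by
    have h1 : (1 / 2 : ℝ) ^ (n + 1) ≤ (1 / 2) ^ (0 + 1) :=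
      pow_le_pow_of_le_one (by norm_num) (by norm_num) (by omega)
    have h2 : 0 ≤ θ * ((1 / 2 : ℝ) ^ (0 + 1) - (1 / 2) ^ (n + 1)) :=
      mul_nonneg hθ0.le (by linarith)
    linarith
  have hW2 : 1 / 2 ≤ 1 - θ * ((1 / 2 : ℝ) ^ (0 + 1) - (1 / 2) ^ (n + 1)) := by
    have h1 : (1 / 2 : ℝ) ^ (n + 1) ≤ (1 / 2) ^ (0 + 1) :=
      pow_le_pow_of_le_one (by norm_num) (by norm_num) (by omega)
    have h2 : θ * ((1 / 2 : ℝ) ^ (0 + 1) - (1 / 2) ^ (n + 1)) ≤
        1 * ((1 / 2 : ℝ) ^ (0 + 1) - (1 / 2) ^ (n + 1)) :=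
      mul_le_mul_of_nonneg_right hθ1 (by linarith)
    norm_num at h2 ⊢
    linarith
  constructor
  · intro i _
    have := hb0 i
    positivity
  · intro i _ c _
    exact HJ_mono (by linarith) (by positivity) c
  · intro i hi c _
    refine HJ_zero (by positivity) ?_ c
    have h1 := hpow i
    have h2 : θ * ((1 / 2 : ℝ) ^ (i + 1) - (1 / 2) ^ (n + 1)) ≤ 1 * (1 / 2) := by
      refine (mul_le_mul_of_nonneg_left (by linarith : (1 / 2 : ℝ) ^ (i + 1) -
        (1 / 2) ^ (n + 1) ≤ 1 / 2) hθ0.le).trans ?_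
      exact mul_le_mul_of_nonneg_right hθ1 (by norm_num)
    linarith
  · intro i hi c hc
    refine HJ_one (by linarith) hW1 (by positivity) ?_ (by rw [hab i]; exact hc)
    have h1 := he2 i (mem_range.mp hi)
    rw [hpow2 i] at h1 ⊢
    have h2 : 0 ≤ θ * ((1 / 2 : ℝ) ^ (i + 1) / 2 - (1 / 2) ^ (n + 1)) :=
      mul_nonneg hθ0.le (by linarith)
    nlinarith
  · intro x hx hx1
    set W : ℝ := 1 - θ * ((1 / 2 : ℝ) ^ (0 + 1) - (1 / 2) ^ (n + 1)) with hW
    set s : ℕ → ℝ := fun i => 1 - θ * ((1 / 2 : ℝ) ^ (i + 1) - (1 / 2) ^ (n + 1)) with hs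
    set w : ℕ → ℝ := fun i => θ * (1 / 2 : ℝ) ^ (i + 2) with hw
    have hwpos : ∀ i, 0 < w i := fun i => by
      simp only [hw]
      positivity
    have hsucc : ∀ i, s i + w i = s (i + 1) := by
      intro i
      simp only [hs, hw]
      rw [pow_succ (1 / 2 : ℝ) (i + 1)]
      ring
    have hterm : ∀ i ∈ range n, (n : ℝ) * w i / bb n i / n *
        ∑ c ∈ range n, HJ (n - bb n i) (bb n i) W (s i) (w i) c x =
        ((n : ℝ) * w i / bb n i - w i) * clamp (x / W) + w i * clamp ((x - s i) / w i) := by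
      intro i _
      have h1 : ∑ c ∈ range n, HJ (n - bb n i) (bb n i) W (s i) (w i) c x =
          ((n - bb n i : ℕ) : ℝ) * clamp (x / W) + bb n i * clamp ((x - s i) / w i) := by
        rw [← HJ_sum, hab i]
      rw [h1, Nat.cast_sub (bb_le hn i)]
      have h2 := hb0 i
      field_simp
    change ∑ i ∈ range n, (n : ℝ) * w i / bb n i / n *
        ∑ c ∈ range n, HJ (n - bb n i) (bb n i) W (s i) (w i) c x = x
    rw [sum_congr rfl hterm, sum_add_distrib, ← sum_mul, sum_sub_distrib]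
    have hmass : ∑ i ∈ range n, (n : ℝ) * w i / bb n i = 1 := by
      have h1 : ∑ i ∈ range n, (n : ℝ) * w i / bb n i = θ * SS n := by
        unfold SS
        rw [mul_sum]
        refine sum_congr rfl fun i _ => ?_
        simp only [hw]
        ring
      rw [h1, hθ]
      field_simp
    have hws : ∑ i ∈ range n, w i = s n - s 0 := by
      rw [← sum_range_sub s]
      refine sum_congr rfl fun i _ => ?_
      rw [← hsucc i]
      ring
    have hsn : s n = 1 := by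
      simp only [hs]
      ring
    have hs0 : s 0 = W := rfl
    rw [hmass, hws, hsn, hs0]
    have hcl : ∑ i ∈ range n, w i * clamp ((x - s i) / w i) = min x (s n) - min x (s 0) := by
      rw [← sum_range_sub (fun i => min x (s i))]
      refine sum_congr rfl fun i _ => ?_
      rw [clampInt (hwpos i), hsucc i]
    rw [hcl, hsn, hs0, min_eq_left hx1]
    have hWpos : 0 < W := by linarith
    have h3 : W * clamp ((x - 0) / W) = min x (0 + W) - min x 0 := clampInt hWpos x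
    rw [sub_zero, zero_add, min_eq_right hx, sub_zero] at h3
    have h4 : (1 : ℝ) - (1 - W) = W := by ring
    rw [h4, h3]
    ring
  · intro i _ c hc
    refine RR_nonneg (by positivity) ?_ (by rw [hab i]; exact hc)
    exact pow_le_pow_of_le_one (by norm_num) (by norm_num) (by omega)
  · intro i _ c hc x hx
    exact HJ_van hW2 hθ0 hθ1 he (by positivity)
      (pow_le_pow_of_le_one (by norm_num) (by norm_num) (by omega)) (by rw [hab i]; exact hc) hx

theorem upper7 {n : ℕ} (hn : 7 ≤ n) :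
    1 - (maxAgreement n).toReal ≤ 128 * n * Real.exp (-n) := by
  have h1 := mix_bound (by omega) (good hn rfl)
  have hn0 : (0 : ℝ) ≤ n := Nat.cast_nonneg n
  have hE : 0 ≤ Real.exp (-(n : ℝ)) := (Real.exp_pos _).le
  have h2 : ∑ i ∈ range n, (n : ℝ) * ∏ c ∈ range n,
      RR (n - bb n i) (bb n i) ((1 / 2) ^ (i + 1)) ((1 / 2) ^ (i + 2)) c ≤
      ∑ i ∈ range n, (n : ℝ) * (64 * Real.exp (-n) * (1 / 2) ^ i) :=
    sum_le_sum fun i _ => mul_le_mul_of_nonneg_left (volume_le hn i) hn0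
  have h3 : ∑ i ∈ range n, (n : ℝ) * (64 * Real.exp (-n) * (1 / 2) ^ i) =
      (64 * n * Real.exp (-n)) * ∑ i ∈ range n, (1 / 2 : ℝ) ^ i := by
    rw [mul_sum]
    refine sum_congr rfl fun i _ => ?_
    ring
  have h4 : ∑ i ∈ range n, (1 / 2 : ℝ) ^ i ≤ 2 := sum_geometric_two_le n
  have h5 : (64 * n * Real.exp (-n)) * ∑ i ∈ range n, (1 / 2 : ℝ) ^ i ≤
      (64 * n * Real.exp (-n)) * 2 := mul_le_mul_of_nonneg_left h4 (by positivity)
  linarith

/-- the upper bound -/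
theorem upper128 (n : ℕ) (hn : 1 ≤ n) :
    1 - (maxAgreement n).toReal ≤ 128 * n * Real.exp (-n) := by
  rcases Nat.lt_or_ge n 7 with h | h
  · have h1 : (1 : ℝ) ≤ 128 * n * (1 / 3) ^ n := by
      interval_cases n <;> norm_num
    have h2 : (1 / 3 : ℝ) ≤ Real.exp (-1) := by
      rw [Real.exp_neg, one_div]
      exact inv_anti₀ (Real.exp_pos 1) (by have := Real.exp_one_lt_d9; linarith)
    have h3 : (1 / 3 : ℝ) ^ n ≤ Real.exp (-n) := by
      have h4 : Real.exp (-(n : ℝ)) = Real.exp (-1) ^ n := by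
        rw [← Real.exp_nat_mul]
        congr 1
        ring
      rw [h4]
      exact pow_le_pow_left₀ (by norm_num) h2 n
    have h5 : (0 : ℝ) ≤ 128 * n := by positivity
    have h6 := mul_le_mul_of_nonneg_left h3 h5
    have h7 : 0 ≤ (maxAgreement n).toReal := ENNReal.toReal_nonneg
    linarith
  · exact upper7 h

end Pool.Agent.Helper62.TH
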